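import Mathlib
import Pool.Agent.H197.WC.FinT
set_option autoImplicit false

/-!
# Correction theorem for the wave equation: no loss of derivatives after a change on a sparse set

In the fixed time `L^p` estimate for the wave equation in `ℝ^d`, `p > 2`, the data lose
`(d-1)(1/2-1/p)` derivatives; the local smoothing conjecture says that almost `1/p` of them are
regained by averaging in time, and the rest of the loss is necessary. We prove a correction theorem
of Luzin-Menshov type: ALL measurable data can be changed on a set which occupies at most the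
proportion `ε` of every unit cube so that nothing is lost, at any time. The new data are continuous,
the new solution is continuous on `ℝ × ℝ^d`, and its difference to the average of the translates of
its initial value by `± t e_i` has norm at most `η (1 + |t|)` in all `L^q(ℝ^d)`, `2 ≤ q ≤ ∞`, for all
`t`; here `e_i` is any given coordinate direction and `ε`, `η` are as small as desired. If the old
data are in `L^p`, `2 ≤ p < ∞` (no derivatives), so are the new ones, with norms at most `8 / ε`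
times the old ones plus `η`, and `‖u(t)‖_p ≤ ‖u(0)‖_p + η (1 + |t|)`. Schwartz data are changed into
Schwartz data with pointwise control.

The new data are `∑_k h_k(x) ψ_k(N_k x_i)`, where `∑ h_k` is a series of Schwartz functions with
rapidly decreasing local sup norms which is equal to the old function off a small set, and `ψ_k` is a
smooth periodic function of mean zero which is `1` off a small set. Near the multiples `m N e_i` of
the frequency `N e_i`, `m ≠ 0`, the symbols `cos (2 π t |ξ|)` and `cos (2 π t ξ_i)` differ by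
`O((1 + |t|) (1 + |ζ|)² / (|m| N))`, `ξ = ζ + m N e_i`.
-/

namespace Pool.Agent.Results.MP_ee74d2_an.CorrectionTheorem

open MeasureTheory Set Filter Topology
open scoped ENNReal FourierTransform SchwartzMap

/-- `ℝ^d` with the Euclidean norm. -/
abbrev R (d : ℕ) := EuclideanSpace ℝ (Fin d)

variable {d : ℕ}

/-- `u(t)` for the solution of `∂ₜ²u = Δu`, `u(0) = u₀`, `∂ₜu(0) = u₁`, with Schwartz data;
`sinc r = sin r / r`. -/
noncomputable def wave (u₀ u₁ : 𝓢(R d, ℂ)) (t : ℝ) : R d → ℂ :=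
  𝓕⁻ fun ξ => ((Real.cos (2 * Real.pi * t * ‖ξ‖) : ℝ) : ℂ) * 𝓕 u₀ ξ +
    ((t * Real.sinc (2 * Real.pi * t * ‖ξ‖) : ℝ) : ℂ) * 𝓕 u₁ ξ

/-- The average of the translates of `g` by `t e_i` and `-t e_i`. -/
noncomputable def travel (i : Fin d) (g : R d → ℂ) (t : ℝ) (x : R d) : ℂ :=
  (g (x + t • EuclideanSpace.single i 1) + g (x - t • EuclideanSpace.single i 1)) / 2

/-- The unit cube with corner `a`. -/
def cube (a : R d) : Set (R d) := {x | ∀ j, a j ≤ x j ∧ x j < a j + 1}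

/-- `B` occupies at most the proportion `ε` of every unit cube. -/
def Sparse (ε : ℝ) (B : Set (R d)) : Prop :=
  MeasurableSet B ∧ ∀ a : R d, volume (B ∩ cube a) ≤ ENNReal.ofReal ε

/-- `U` is a continuous solution of the wave equation with continuous initial values `g₀`, `g₁`: on
`ℝ × ℝ^d` it is the locally uniform limit of solutions with Schwartz data which tend locally
uniformly to `g₀` and `g₁`. For the exponents `p ∈ P` the data converge also in `L^p`, and so do the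
solutions, uniformly for bounded times. -/
def Solves (P : Set ℝ≥0∞) (g₀ g₁ : R d → ℂ) (U : ℝ → R d → ℂ) : Prop :=
  Continuous g₀ ∧ Continuous g₁ ∧ Continuous (fun z : ℝ × R d => U z.1 z.2) ∧
  (∀ x, U 0 x = g₀ x) ∧ ∃ v₀ v₁ : ℕ → 𝓢(R d, ℂ),
    TendstoLocallyUniformly (fun n x => v₀ n x) g₀ atTop ∧
    TendstoLocallyUniformly (fun n x => v₁ n x) g₁ atTop ∧
    TendstoLocallyUniformly (fun n (z : ℝ × R d) => wave (v₀ n) (v₁ n) z.1 z.2)
      (fun z => U z.1 z.2) atTop ∧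
    ∀ p ∈ P,
      Tendsto (fun n => eLpNorm (fun x => v₀ n x - g₀ x) p volume) atTop (𝓝 0) ∧
      Tendsto (fun n => eLpNorm (fun x => v₁ n x - g₁ x) p volume) atTop (𝓝 0) ∧
      ∀ T : ℝ, Tendsto (fun n => ⨆ t ∈ Icc (-T) T,
        eLpNorm (fun x => wave (v₀ n) (v₁ n) t x - U t x) p volume) atTop (𝓝 0)

/-- `U(t)` is within `η (1 + |t|)` of the average of the translates of its initial value, in all
`L^q`, `2 ≤ q ≤ ∞`. -/
def Travels (i : Fin d) (η : ℝ) (g₀ : R d → ℂ) (U : ℝ → R d → ℂ) : Prop :=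
  ∀ (t : ℝ) (q : ℝ≥0∞), 2 ≤ q →
    eLpNorm (fun x => U t x - travel i g₀ t x) q volume ≤ ENNReal.ofReal (η * (1 + |t|))

/-- The `L^p` norm of `U(t)` is at most that of its initial value plus `η (1 + |t|)`. -/
def NoLoss (η : ℝ) (p : ℝ≥0∞) (g₀ : R d → ℂ) (U : ℝ → R d → ℂ) : Prop :=
  ∀ t : ℝ, eLpNorm (U t) p volume ≤ eLpNorm g₀ p volume + ENNReal.ofReal (η * (1 + |t|))

/-- **Correction theorem for the wave equation.** Let `0 < ε ≤ 1`, `η > 0`, and let `e_i` be a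
coordinate direction of `ℝ^d`.

(1) All measurable `f₀, f₁` agree off an `ε`-sparse set with continuous functions `g₀, g₁` which are
the data of a continuous solution `U` with `Travels i η g₀ U`.

(2) If `2 ≤ p < ∞` and `f₀, f₁` are in `L^p` then one can moreover have `g₀, g₁` in `L^p`,
`‖g_j‖_p ≤ (8/ε) ‖f_j‖_p + η`, convergence in `L^p` and `NoLoss η p g₀ U`.

(3) Schwartz functions `u₀, u₁` agree off an `ε`-sparse set with Schwartz functions `v₀, v₁`,
`|v_j| ≤ (2/ε) |u_j|` everywhere, whose solution satisfies `Travels`, and `NoLoss` for all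
`2 ≤ p ≤ ∞`. -/
theorem result (i : Fin d) (ε η : ℝ) (hε : 0 < ε) (hε1 : ε ≤ 1) (hη : 0 < η) :
    (∀ f₀ f₁ : R d → ℂ, Measurable f₀ → Measurable f₁ →
      ∃ (g₀ g₁ : R d → ℂ) (B : Set (R d)) (U : ℝ → R d → ℂ), Sparse ε B ∧
        (∀ x, x ∉ B → g₀ x = f₀ x ∧ g₁ x = f₁ x) ∧ Solves ∅ g₀ g₁ U ∧ Travels i η g₀ U) ∧
    (∀ p : ℝ≥0∞, 2 ≤ p → p ≠ ⊤ → ∀ f₀ f₁ : R d → ℂ, MemLp f₀ p volume → MemLp f₁ p volume →
      ∃ (g₀ g₁ : R d → ℂ) (B : Set (R d)) (U : ℝ → R d → ℂ), Sparse ε B ∧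
        (∀ x, x ∉ B → g₀ x = f₀ x ∧ g₁ x = f₁ x) ∧ Solves {p} g₀ g₁ U ∧ Travels i η g₀ U ∧
        MemLp g₀ p volume ∧ MemLp g₁ p volume ∧
        eLpNorm g₀ p volume ≤ ENNReal.ofReal (8 / ε) * eLpNorm f₀ p volume + ENNReal.ofReal η ∧
        eLpNorm g₁ p volume ≤ ENNReal.ofReal (8 / ε) * eLpNorm f₁ p volume + ENNReal.ofReal η ∧
        NoLoss η p g₀ U) ∧
    (∀ u₀ u₁ : 𝓢(R d, ℂ), ∃ (v₀ v₁ : 𝓢(R d, ℂ)) (B : Set (R d)), Sparse ε B ∧
      (∀ x, x ∉ B → v₀ x = u₀ x ∧ v₁ x = u₁ x) ∧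
      (∀ x, ‖v₀ x‖ ≤ 2 / ε * ‖u₀ x‖ ∧ ‖v₁ x‖ ≤ 2 / ε * ‖u₁ x‖) ∧
      Travels i η v₀ (wave v₀ v₁) ∧ ∀ p : ℝ≥0∞, 2 ≤ p → NoLoss η p v₀ (wave v₀ v₁)) := by
  have sp : ∀ (δ : ℝ) (B : Set (R d)), Pool.Agent.H197.WC.Sp
      (range Pool.Agent.H197.WC.cube) δ B → Sparse δ B := fun δ B h =>
    ⟨h.1, fun a => h.2 _ ⟨a, rfl⟩⟩
  refine ⟨?_, ?_, ?_⟩
  · intro f₀ f₁ hf₀ hf₁
    obtain ⟨g₀, g₁, B, U, a1, a2, a3, a4, a5, a6, a7, a8⟩ :=
      Pool.Agent.H197.WC.measW i f₀ f₁ hf₀ hf₁ ε η hε hε1 hη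
    exact ⟨g₀, g₁, B, U, sp ε B a1, a2, ⟨a3, a4, a5, a6, a8⟩, a7⟩
  · intro p hp hp' f₀ f₁ hf₀ hf₁
    obtain ⟨g₀, g₁, B, U, a1, a2, a3, a4, a5, a6, a7, a8, a9, a10, a11, a12, a13⟩ :=
      Pool.Agent.H197.WC.lpW i p hp hp' f₀ f₁ hf₀ hf₁ ε η hε hε1 hη
    exact ⟨g₀, g₁, B, U, sp ε B a1, a2, ⟨a3, a4, a5, a6, a8⟩, a7, a9, a10, a11, a12, a13⟩
  · intro u₀ u₁
    obtain ⟨v₀, v₁, B, hB, heq, hbd, hL⟩ :=
      Pool.Agent.H197.WC.part1 i ε η hε hε1 hη u₀ u₁
    exact ⟨v₀, v₁, B, sp ε B hB, heq, hbd, fun t q hq => (hL t q hq).1,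
      fun p hp t => (hL t p hp).2⟩

end Pool.Agent.Results.MP_ee74d2_an.CorrectionTheorem
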