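import Pool.Agent.H380.BE.One

/-!
# Maximal Bochner-Riesz means over ellipsoids, on average over the ellipsoid

The Bochner-Riesz mean of order `δ` of a function `f` on `ℝⁿ` over the ellipsoid
`a_1 ξ_1² + … + a_n ξ_n² ≤ R²` is the Fourier multiplier operator with the symbol
`(1 - (a_1 ξ_1² + … + a_n ξ_n²) / R²)_+^δ`.

The local smoothing estimate of Q1, an average over one parameter `t`, implies the estimates of the
(maximal) Bochner-Riesz conjecture, for each single ellipsoid and `δ > n (1/2 - 1/p) - 1/2`.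
Here one axis of the ellipsoid is fixed (`a_1 = 1`), we average over the other `n - 1` parameters (one
parameter in the plane, two in the space), and obtain the maximal estimate in every dimension,
for `2 ≤ p ≤ 4` and for *every* order `δ > 0`. Therefore, for every integrable function in `L^p` and
for almost every ellipsoid with the given axis, the means of any order `δ > 0` converge almost
everywhere. By homogeneity the same follows for the average over all `n` parameters.

Proof. The multipliers are superpositions of the Gaussian ones `exp(-κ (1 + 2 π i s) ∑ a_j ξ_j²)`,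
which are tensor products of operators in one variable with independent parameters
`a_1, …, a_n`; in one variable the average over `a ∈ [1,2]` is bounded on `L⁴` with a logarithmic loss
in `s`. A comparison with band-pass operators and the Hardy-Littlewood maximal theorem give
the supremum over the radii, and since it is a supremum over all radii, one of the `n` parameters is
superfluous.
-/

set_option autoImplicit false

open MeasureTheory Set Complex Filter Topology
open scoped ENNReal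

namespace Pool.Agent.Results.MP_ee74d2_an.EllipsoidMeans

/-- The Fourier transform on `ℝⁿ`. -/
noncomputable def fourier {n : ℕ} (f : (Fin n → ℝ) → ℂ) (ξ : Fin n → ℝ) : ℂ :=
  ∫ y : Fin n → ℝ, cexp (-(2 * (Real.pi : ℂ) * I * ((∑ j, y j * ξ j : ℝ) : ℂ))) * f y

/-- The Bochner-Riesz mean of order `δ` of `f` over the ellipsoid `∑ a_j ξ_j² ≤ R²`. -/
noncomputable def mean {n : ℕ} (δ : ℝ) (a : Fin n → ℝ) (R : ℝ) (f : (Fin n → ℝ) → ℂ)
    (x : Fin n → ℝ) : ℂ :=
  ∫ ξ : Fin n → ℝ, (((max (1 - (∑ j, a j * ξ j ^ 2) / R ^ 2) 0) ^ δ : ℝ) : ℂ) * fourier f ξ *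
    cexp (2 * (Real.pi : ℂ) * I * ((∑ j, x j * ξ j : ℝ) : ℂ))

/-- **Maximal Bochner-Riesz means over ellipsoids with one fixed axis, on average over the
ellipsoid.** Let `n = m + 1 ≥ 1`, `2 ≤ p ≤ 4` and `δ > 0`. For `b ∈ (0,∞)^m` let `a = (1, b)`.
(1) For `0 < α ≤ β` there is a constant `C` such that for all integrable `f` on `ℝⁿ`
`∫_{[α,β]^m} ∫_{ℝⁿ} sup_{R > 0} |S^δ_{(1,b),R} f(x)|^p dx db ≤ C ∫ |f|^p`.
(2) For every `f ∈ L¹ ∩ L^p`, for almost every `b ∈ (0,∞)^m`: `S^δ_{(1,b),R} f(x) → f(x)` as `R → ∞`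
for almost every `x`. -/
theorem result (m : ℕ) (p δ : ℝ) (hp : 2 ≤ p) (hp4 : p ≤ 4) (hδ : 0 < δ) :
    (∀ α β : ℝ, 0 < α → α ≤ β → ∃ C : ℝ, 0 < C ∧ ∀ f : (Fin (m + 1) → ℝ) → ℂ, Integrable f →
      ∫⁻ b in Icc (fun _ : Fin m => α) (fun _ => β),
          ∫⁻ x, (⨆ R : {R : ℝ // 0 < R}, ‖mean δ (Fin.cons 1 b) R f x‖ₑ) ^ p ≤
        ENNReal.ofReal C * ∫⁻ x, ‖f x‖ₑ ^ p) ∧
    ∀ f : (Fin (m + 1) → ℝ) → ℂ, Integrable f → MemLp f (ENNReal.ofReal p) volume →
      ∀ᵐ b : Fin m → ℝ, (∀ j, 0 < b j) →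
        ∀ᵐ x : Fin (m + 1) → ℝ,
          Tendsto (fun R : ℝ => mean δ (Fin.cons 1 b) R f x) atTop (𝓝 (f x)) :=
  ⟨fun α β hα _ => Pool.Agent.H380.BE.main_one m p δ hp hp4 hδ α β hα,
    fun f hf hfp => Pool.Agent.H380.BE.ae_one m p δ hp hp4 hδ f hf hfp⟩

end Pool.Agent.Results.MP_ee74d2_an.EllipsoidMeans
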